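import Mathlib

set_option autoImplicit false

/-!
# The number of cycles of the elated function is unbounded

Three digit fixed points with leading digit `2` in base `b = 3 B` arise from the representations
`U ^ 2 + V ^ 2 = 17 B ^ 2 - 7` with `U ≡ - B`, `V ≡ 1` modulo `4` in an open arc of directions. The family
`B = 340 t ^ 2 - 18 t + 9`, `U = 884 t ^ 2 - 34 t + 23`, `V = 1088 t ^ 2 - 68 t + 29` of representations has
direction `(13, 16)`. Let `γ = g + 2 c i` with `g = 2 c ^ 2 + 59`; the norm of `γ` is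
`(2 c ^ 2 + 60) ^ 2 - 119`, so `119` is a square modulo `γ`, and for `t` in a class modulo the norm, `γ`
divides `U + V i`. For all these `t` the number `(U + V i) * conj γ / γ` gives another representation.
By the Chinese remainder theorem there is `t` which is suitable for many `c`.
-/

namespace Pool.Agent.Results.MP_096971_nt.Unbounded

/-- The base-`b` elated function: the leading digit times the sum of the squares of the digits. -/
def E (b a : ℕ) : ℕ := (Nat.digits b a).getLastD 0 * ((Nat.digits b a).map (fun d => d ^ 2)).sum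

/-- `S` is a cycle of the base-`b` elated function: `S = {x 0, ..., x (k-1)}` with `k ≥ 1` distinct
positive integers such that `E (x j) = x (j + 1)` for `j < k - 1` and `E (x (k-1)) = x 0`. -/
def IsCycle (b : ℕ) (S : Set ℕ) : Prop :=
  ∃ (k : ℕ) (x : ℕ → ℕ), 1 ≤ k ∧ S = {a | ∃ j < k, x j = a} ∧ (∀ j < k, 0 < x j) ∧
    (∀ i < k, ∀ j < k, x i = x j → i = j) ∧ (∀ j, j + 1 < k → E b (x j) = x (j + 1)) ∧
    E b (x (k - 1)) = x 0

/-- The number of cycles of the base-`b` elated function. -/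
noncomputable def C (b : ℕ) : ℕ∞ := Set.encard {S : Set ℕ | IsCycle b S}

theorem fixed_isCycle {b a : ℕ} (ha : 0 < a) (h : E b a = a) : IsCycle b {a} := by
  refine ⟨1, fun _ => a, le_rfl, ?_, fun _ _ => ha, fun i hi j hj _ => by omega, fun j hj => by omega, h⟩
  ext x
  simp only [Set.mem_singleton_iff, Set.mem_ofPred_eq]
  constructor
  · rintro rfl; exact ⟨0, by norm_num, rfl⟩
  · rintro ⟨_, _, rfl⟩; rfl

/-- three digit numbers with leading digit `2` -/
theorem E_three {b y z : ℕ} (hb : 2 < b) (hy : y < b) (hz : z < b) :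
    E b (2 * b ^ 2 + y * b + z) = 2 * (z ^ 2 + y ^ 2 + 4) := by
  have h1 : 2 * b ^ 2 + y * b + z = Nat.ofDigits b [z, y, 2] := by
    simp [Nat.ofDigits_cons]
    ring
  have h2 : Nat.digits b (2 * b ^ 2 + y * b + z) = [z, y, 2] := by
    rw [h1]
    apply Nat.digits_ofDigits b (by omega)
    · intro l hl
      simp only [List.mem_cons, List.not_mem_nil, or_false] at hl
      rcases hl with rfl | rfl | rfl <;> assumption
    · intro h
      simp
  unfold E
  rw [h2]
  simp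
  ring

/-- `N(γ)` -/
def Nn (c : ℕ) : ℕ := (2 * c ^ 2 + 59) ^ 2 + 4 * c ^ 2

/-- the sequence of parameters -/
def cc : ℕ → ℕ
  | 0 => 85
  | j + 1 => cc j * Nn (cc j)

theorem Nn_mod {c : ℕ} (h : ¬ 59 ∣ c) : ¬ 59 ∣ Nn c := by
  have key : ∀ x : ZMod 59, x ≠ 0 → (2 * x ^ 2 + 59) ^ 2 + 4 * x ^ 2 ≠ 0 := by decide
  intro h1
  have h2 : ((c : ℕ) : ZMod 59) ≠ 0 := by
    rwa [Ne, ZMod.natCast_eq_zero_iff]
  apply key _ h2
  have h3 : ((Nn c : ℕ) : ZMod 59) = 0 := by
    rwa [ZMod.natCast_eq_zero_iff]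
  unfold Nn at h3
  push_cast at h3
  exact h3

theorem cc_59 (j : ℕ) : ¬ 59 ∣ cc j := by
  induction j with
  | zero => decide
  | succ j ih =>
    intro h
    have hp : Nat.Prime 59 := by norm_num
    rcases (Nat.Prime.dvd_mul hp).1 h with h1 | h1
    · exact ih h1
    · exact Nn_mod ih h1

theorem cc_85 (j : ℕ) : 85 ∣ cc j := by
  induction j with
  | zero => exact dvd_rfl
  | succ j ih => exact Dvd.dvd.mul_right ih _

theorem cc_ge (j : ℕ) : 85 ≤ cc j := by
  induction j with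
  | zero => exact le_rfl
  | succ j ih =>
    have : 1 ≤ Nn (cc j) := by unfold Nn; nlinarith [Nat.zero_le (cc j)]
    show 85 ≤ cc j * Nn (cc j)
    nlinarith

theorem cc_lt_succ (j : ℕ) : cc j < cc (j + 1) := by
  have h := cc_ge j
  have : 2 ≤ Nn (cc j) := by unfold Nn; nlinarith [Nat.zero_le (cc j)]
  show cc j < cc j * Nn (cc j)
  nlinarith

theorem cc_strictMono : StrictMono cc := strictMono_nat_of_lt_succ cc_lt_succ

theorem cc_dvd {i j : ℕ} (h : i ≤ j) : cc i ∣ cc j := by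
  induction j, h using Nat.le_induction with
  | base => exact dvd_rfl
  | succ j _ ih => exact Dvd.dvd.mul_right ih _

theorem Nn_dvd {i j : ℕ} (h : i < j) : Nn (cc i) ∣ cc j := by
  have h1 : Nn (cc i) ∣ cc (i + 1) := Dvd.intro_left _ rfl
  exact h1.trans (cc_dvd h)

theorem Nn_eq (c : ℕ) : Nn c = c * (4 * c ^ 3 + 240 * c) + 59 ^ 2 := by
  unfold Nn; ring

theorem coprime_59 {c : ℕ} (h : ¬ 59 ∣ c) : Nat.Coprime (59 ^ 2) c := by
  apply Nat.Coprime.pow_left
  exact (Nat.Prime.coprime_iff_not_dvd (by norm_num)).2 h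

theorem Nn_coprime_c {c : ℕ} (h : ¬ 59 ∣ c) : Nat.Coprime (Nn c) c := by
  rw [Nn_eq]
  have := coprime_59 h
  rw [Nat.add_comm, Nat.coprime_add_mul_left_left]
  exact this

theorem Nn_coprime {i j : ℕ} (h : i < j) : Nat.Coprime (Nn (cc i)) (Nn (cc j)) := by
  obtain ⟨q, hq⟩ := Nn_dvd h
  rw [Nn_eq (cc j)]
  have h1 : cc j * (4 * cc j ^ 3 + 240 * cc j) = Nn (cc i) * (q * (4 * cc j ^ 3 + 240 * cc j)) := by
    nth_rewrite 1 [hq]; ring
  rw [h1, Nat.add_comm, Nat.coprime_add_mul_left_right]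
  exact (coprime_59 (Nn_mod (cc_59 i))).symm

theorem Nn_coprime_340 (j : ℕ) : Nat.Coprime (Nn (cc j)) 340 := by
  have h85 : Nat.Coprime (Nn (cc j)) 85 := by
    obtain ⟨q, hq⟩ := cc_85 j
    rw [Nn_eq]
    have h1 : cc j * (4 * cc j ^ 3 + 240 * cc j) = 85 * (q * (4 * cc j ^ 3 + 240 * cc j)) := by
      nth_rewrite 1 [hq]; ring
    rw [h1, Nat.add_comm, Nat.coprime_add_mul_left_left]
    norm_num
  have h2 : Nat.Coprime (Nn (cc j)) 2 := by
    rw [Nat.coprime_comm, Nat.coprime_two_left, Nn]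
    have : (2 * cc j ^ 2 + 59) ^ 2 + 4 * cc j ^ 2 =
      2 * (2 * (cc j ^ 2) ^ 2 + 120 * cc j ^ 2 + 1740) + 1 := by ring
    rw [this]
    exact odd_two_mul_add_one _
  have : 340 = 85 * (2 * 2) := by norm_num
  rw [this]
  exact Nat.Coprime.mul_right h85 (Nat.Coprime.mul_right h2 h2)

theorem Nn_coprime_2c (j : ℕ) : Nat.Coprime (Nn (cc j)) (2 * cc j) := by
  have h2 : Nat.Coprime (Nn (cc j)) 2 :=
    Nat.Coprime.coprime_dvd_right (by norm_num) (Nn_coprime_340 j)
  exact Nat.Coprime.mul_right h2 (Nn_coprime_c (cc_59 j))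

/-- the family of representations -/
def U (t : ℤ) : ℤ := 884 * t ^ 2 - 34 * t + 23
/-- the family of representations -/
def V (t : ℤ) : ℤ := 1088 * t ^ 2 - 68 * t + 29
/-- the family of representations -/
def B (t : ℤ) : ℤ := 340 * t ^ 2 - 18 * t + 9

theorem UVB (t : ℤ) : U t ^ 2 + V t ^ 2 = 17 * B t ^ 2 - 7 := by
  unfold U V B; ring

/-- there is a class of `t` modulo `N` for which `γ` divides `U + V i` -/
theorem exists_t (j : ℕ) : ∃ t₀ : ℕ, ∀ t : ℤ, t ≡ t₀ [ZMOD (Nn (cc j) : ℤ)] →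
    ∃ p q : ℤ, U t = (2 * (cc j : ℤ) ^ 2 + 59) * p - 2 * cc j * q ∧
      V t = (2 * (cc j : ℤ) ^ 2 + 59) * q + 2 * cc j * p := by
  set c := cc j with hc
  set N := Nn c with hN
  have hN0 : 0 < N := by rw [hN]; unfold Nn; positivity
  have : NeZero N := ⟨hN0.ne'⟩
  -- units
  have hu2c : IsUnit ((2 * c : ℕ) : ZMod N) := (ZMod.isUnit_iff_coprime _ _).2 (Nn_coprime_2c j).symm
  have hu340 : IsUnit ((340 : ℕ) : ZMod N) := (ZMod.isUnit_iff_coprime _ _).2 (Nn_coprime_340 j).symm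
  obtain ⟨h, hh⟩ := hu2c
  obtain ⟨w, hw⟩ := hu340
  set g : ZMod N := 2 * (c : ZMod N) ^ 2 + 59 with hg
  have hNg : g ^ 2 + (h : ZMod N) ^ 2 = 0 := by
    have h1 : ((N : ℕ) : ZMod N) = 0 := ZMod.natCast_self N
    rw [hh, hg]
    have h2 : ((N : ℕ) : ZMod N) = (2 * (c : ZMod N) ^ 2 + 59) ^ 2 + 4 * (c : ZMod N) ^ 2 := by
      have h3 : N = (2 * c ^ 2 + 59) ^ 2 + 4 * c ^ 2 := rfl
      have h4 := congrArg (fun x : ℕ => (x : ZMod N)) h3
      rw [h4]
      push_cast
      ring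
    rw [h1] at h2
    push_cast
    rw [h2]
    ring
  set m : ZMod N := - g * (h⁻¹ : (ZMod N)ˣ) with hm
  have hhm : (h : ZMod N) * m = - g := by
    rw [hm]
    have : (h : ZMod N) * (-g * (h⁻¹ : (ZMod N)ˣ)) = -g * ((h : ZMod N) * (h⁻¹ : (ZMod N)ˣ)) := by ring
    rw [this, Units.mul_inv, mul_one]
  have hm2 : m ^ 2 = -1 := by
    have h1 : (h : ZMod N) ^ 2 * (m ^ 2 + 1) = 0 := by
      have : (h : ZMod N) ^ 2 * (m ^ 2 + 1) = ((h : ZMod N) * m) ^ 2 + (h : ZMod N) ^ 2 := by ring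
      rw [this, hhm, neg_sq, hNg]
    have h2 : IsUnit ((h : ZMod N) ^ 2) := h.isUnit.pow 2
    have h3 := (h2.mul_right_eq_zero).1 h1
    linear_combination h3
  set s : ZMod N := g + 1 with hs
  have hs2 : s ^ 2 = 119 := by
    have h1 : s ^ 2 - 119 = g ^ 2 + (h : ZMod N) ^ 2 := by
      rw [hh, hs, hg]
      push_cast
      ring
    rw [hNg] at h1
    linear_combination h1
  set τ : ZMod N := (w⁻¹ : (ZMod N)ˣ) * (9 + 2 * m + 5 * m * s) with hτ
  have h340 : (340 : ZMod N) * τ = 9 + 2 * m + 5 * m * s := by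
    have hw' : (w : ZMod N) = 340 := by rw [hw]; norm_num
    rw [hτ, ← hw', ← mul_assoc, Units.mul_inv, one_mul]
  refine ⟨τ.val, fun t ht => ?_⟩
  have htz : (t : ZMod N) = τ := by
    have h1 := (ZMod.intCast_eq_intCast_iff _ _ _).2 ht
    rw [h1]
    push_cast
    exact ZMod.natCast_zmod_val τ
  -- the value of `U + m V`
  have hUV : ((U t : ℤ) : ZMod N) + m * ((V t : ℤ) : ZMod N) = 0 := by
    have e : (340 : ZMod N) * 5 * (((U t : ℤ) : ZMod N) + m * ((V t : ℤ) : ZMod N)) =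
        (13 + 16 * m) * ((340 * τ - 9 - 2 * m) ^ 2 + 2975) -
          (m ^ 2 + 1) * (4 * (13 + 16 * m) - 16 * (1360 * τ - 36)) := by
      unfold U V
      push_cast
      rw [htz]
      ring
    have e1 : (340 * τ - 9 - 2 * m) ^ 2 + 2975 = 0 := by
      rw [h340]
      linear_combination 25 * s ^ 2 * hm2 - 25 * hs2
    have hm3 : m ^ 2 + 1 = 0 := by linear_combination hm2
    rw [e1, hm3, mul_zero, zero_mul, sub_zero] at e
    have hu5 : IsUnit ((340 : ZMod N) * 5) := by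
      have h1 : IsUnit ((340 : ℕ) : ZMod N) := ⟨w, hw⟩
      have h2 : IsUnit ((5 : ℕ) : ZMod N) := by
        apply (ZMod.isUnit_iff_coprime _ _).2
        exact (Nat.Coprime.coprime_dvd_right (by norm_num) (Nn_coprime_340 j)).symm
      have := h1.mul h2
      simpa using this
    exact (hu5.mul_right_eq_zero).1 e
  -- divisibility
  have hgz : g = - ((h : ZMod N) * m) := by rw [hhm, neg_neg]
  have hcz : (h : ZMod N) = 2 * (c : ZMod N) := by rw [hh]; push_cast; ring
  have d1 : (N : ℤ) ∣ (2 * (c : ℤ) ^ 2 + 59) * U t + 2 * c * V t := by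
    rw [← ZMod.intCast_zmod_eq_zero_iff_dvd]
    push_cast
    rw [← hg, ← hcz, hgz]
    linear_combination (-(h : ZMod N) * m) * hUV + (h : ZMod N) * ((V t : ℤ) : ZMod N) * hm2
  have d2 : (N : ℤ) ∣ (2 * (c : ℤ) ^ 2 + 59) * V t - 2 * c * U t := by
    rw [← ZMod.intCast_zmod_eq_zero_iff_dvd]
    push_cast
    rw [← hg, ← hcz, hgz]
    linear_combination (-(h : ZMod N)) * hUV
  obtain ⟨p, hp⟩ := d1
  obtain ⟨q, hq⟩ := d2
  have hNz : (N : ℤ) = (2 * (c : ℤ) ^ 2 + 59) ^ 2 + (2 * c) ^ 2 := by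
    rw [hN]; unfold Nn; push_cast; ring
  have hNz0 : (N : ℤ) ≠ 0 := by exact_mod_cast hN0.ne'
  refine ⟨p, q, ?_, ?_⟩
  · apply mul_left_cancel₀ hNz0
    have : (N : ℤ) * ((2 * (c : ℤ) ^ 2 + 59) * p - 2 * c * q) =
        (2 * (c : ℤ) ^ 2 + 59) * (N * p) - 2 * c * (N * q) := by ring
    rw [this, ← hp, ← hq, hNz]
    ring
  · apply mul_left_cancel₀ hNz0
    have : (N : ℤ) * ((2 * (c : ℤ) ^ 2 + 59) * q + 2 * c * p) =
        (2 * (c : ℤ) ^ 2 + 59) * (N * q) + 2 * c * (N * p) := by ring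
    rw [this, ← hp, ← hq, hNz]
    ring

/-- the rotated representation, and the digits it gives -/
theorem rotated {t p q c : ℤ} (hc : 85 ≤ c) (hU : U t = (2 * c ^ 2 + 59) * p - 2 * c * q)
    (hV : V t = (2 * c ^ 2 + 59) * q + 2 * c * p) (ht0 : 0 ≤ t) :
    0 < p ∧ ∃ y z : ℤ, 0 ≤ y ∧ y < 3 * B t ∧ 0 ≤ z ∧ z < 3 * B t ∧
      4 * y = 3 * (U t + 4 * c * q + B t) ∧ 4 * z = 3 * (V t - 4 * c * p) + 1 ∧
      2 * (z ^ 2 + y ^ 2 + 4) = 2 * (3 * B t) ^ 2 + y * (3 * B t) + z := by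
  set g : ℤ := 2 * c ^ 2 + 59 with hg
  have hg1 : 170 * c ≤ g := by rw [hg]; nlinarith
  have hg0 : 0 < g := by nlinarith
  have hN0 : 0 < g ^ 2 + (2 * c) ^ 2 := by positivity
  have hU0 : 0 < U t := by unfold U; nlinarith [sq_nonneg (t - 1), sq_nonneg t]
  have hVU : U t < V t := by unfold U V; nlinarith [sq_nonneg (t - 1), sq_nonneg t]
  have hp1 : (g ^ 2 + (2 * c) ^ 2) * p = g * U t + 2 * c * V t := by rw [hU, hV]; ring
  have hq1 : (g ^ 2 + (2 * c) ^ 2) * q = g * V t - 2 * c * U t := by rw [hU, hV]; ring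
  have hp : 0 < p := by
    have h1 : 0 < (g ^ 2 + (2 * c) ^ 2) * p := by
      rw [hp1]
      have h2 : 0 < g * U t := mul_pos hg0 hU0
      have h3 : 0 < 2 * c * V t := mul_pos (by linarith) (by linarith)
      linarith
    exact (pos_iff_pos_of_mul_pos h1).1 hN0
  have hq : 0 < q := by
    have h1 : 0 < (g ^ 2 + (2 * c) ^ 2) * q := by
      rw [hq1]
      have h2 : 2 * c * U t < g * V t := by
        have h3 : 2 * c * U t ≤ g * U t := mul_le_mul_of_nonneg_right (by linarith) hU0.le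
        have h4 : g * U t < g * V t := mul_lt_mul_of_pos_left hVU hg0
        linarith
      linarith
    exact (pos_iff_pos_of_mul_pos h1).1 hN0
  have hcq : 170 * (c * q) ≤ V t := by
    have h1 : 170 * c * q ≤ g * q := mul_le_mul_of_nonneg_right hg1 hq.le
    have h2 : 0 < 2 * c * p := mul_pos (by linarith) hp
    rw [hV]
    linarith
  have hcp : 170 * (c * p) ≤ U t + 2 * (c * q) := by
    have h1 : 170 * c * p ≤ g * p := mul_le_mul_of_nonneg_right hg1 hp.le
    rw [hU]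
    linarith
  have hcq0 : 0 < c * q := mul_pos (by linarith) hq
  have hcp0 : 0 < c * p := mul_pos (by linarith) hp
  have hsum : (U t + 4 * (c * q)) ^ 2 + (V t - 4 * (c * p)) ^ 2 = 17 * B t ^ 2 - 7 := by
    rw [← UVB, hU, hV]
    ring
  refine ⟨hp, 3 * (306 * t ^ 2 - 13 * t + 8 + c * q), 816 * t ^ 2 - 51 * t + 22 - 3 * (c * p), ?_, ?_, ?_, ?_,
    ?_, ?_, ?_⟩
  · nlinarith
  · have : 170 * (c * q) ≤ 1088 * t ^ 2 - 68 * t + 29 := hcq
    unfold B
    nlinarith
  · have h1 : 170 * (c * q) ≤ 1088 * t ^ 2 - 68 * t + 29 := hcq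
    have h2 : 170 * (c * p) ≤ 884 * t ^ 2 - 34 * t + 23 + 2 * (c * q) := hcp
    nlinarith
  · unfold B
    nlinarith
  · unfold U B; ring
  · unfold V; ring
  · have e1 : 4 * (3 * (306 * t ^ 2 - 13 * t + 8 + c * q)) - 3 * B t = 3 * (U t + 4 * (c * q)) := by
      unfold U B; ring
    have e2 : 4 * (816 * t ^ 2 - 51 * t + 22 - 3 * (c * p)) - 1 = 3 * (V t - 4 * (c * p)) := by
      unfold V; ring
    set y := 3 * (306 * t ^ 2 - 13 * t + 8 + c * q)
    set z := 816 * t ^ 2 - 51 * t + 22 - 3 * (c * p)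
    have key : (4 * y - 3 * B t) ^ 2 + (4 * z - 1) ^ 2 = 17 * (3 * B t) ^ 2 - 63 := by
      rw [e1, e2]
      linear_combination 9 * hsum
    have h8 : 8 * (2 * (z ^ 2 + y ^ 2 + 4)) = 8 * (2 * (3 * B t) ^ 2 + y * (3 * B t) + z) := by
      linear_combination key
    linarith

/-- **Q1**: the number of cycles of the base-`b` elated function is unbounded. -/
theorem result : ∀ M : ℕ, ∃ b : ℕ, 2 ≤ b ∧ (M : ℕ∞) < C b := by
  intro M
  choose t₀ ht₀ using exists_t
  -- the Chinese remainder theorem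
  have hpair : Set.Pairwise ((Finset.range (M + 1) : Finset ℕ) : Set ℕ)
      (Function.onFun Nat.Coprime (fun j => Nn (cc j))) := by
    intro i _ j _ hij
    rcases lt_or_gt_of_ne hij with h | h
    · exact Nn_coprime h
    · exact (Nn_coprime h).symm
  obtain ⟨T, hT⟩ := Nat.chineseRemainderOfFinset t₀ (fun j => Nn (cc j)) (Finset.range (M + 1))
    (fun j _ => by unfold Nn; positivity) hpair
  have hT0 : (0 : ℤ) ≤ T := Int.natCast_nonneg T
  have hex : ∀ j ∈ Finset.range (M + 1), ∃ p q y z : ℤ, 0 < p ∧ 0 ≤ y ∧ y < 3 * B T ∧ 0 ≤ z ∧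
      z < 3 * B T ∧ 4 * y = 3 * (U T + 4 * cc j * q + B T) ∧ 4 * z = 3 * (V T - 4 * cc j * p) + 1 ∧
      2 * (z ^ 2 + y ^ 2 + 4) = 2 * (3 * B T) ^ 2 + y * (3 * B T) + z ∧
      U T = (2 * (cc j : ℤ) ^ 2 + 59) * p - 2 * cc j * q ∧
      V T = (2 * (cc j : ℤ) ^ 2 + 59) * q + 2 * cc j * p := by
    intro j hj
    have h1 : (T : ℤ) ≡ t₀ j [ZMOD (Nn (cc j) : ℤ)] := by
      have := hT j hj
      exact (Int.natCast_modEq_iff).2 this
    obtain ⟨p, q, hU, hV⟩ := ht₀ j T h1
    obtain ⟨hp, y, z, h2, h3, h4, h5, h6, h7, h8⟩ :=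
      rotated (by exact_mod_cast cc_ge j) hU hV hT0
    exact ⟨p, q, y, z, hp, h2, h3, h4, h5, h6, h7, h8, hU, hV⟩
  have hB : (0 : ℤ) < B T := by unfold B; nlinarith [sq_nonneg ((T : ℤ) - 1)]
  obtain ⟨b, hb⟩ : ∃ b : ℕ, (b : ℤ) = 3 * B T := ⟨(3 * B T).toNat, Int.toNat_of_nonneg (by linarith)⟩
  have hb2 : 2 < b := by
    have : (2 : ℤ) < b := by linarith
    exact_mod_cast this
  choose! p q y z hp hy0 hy hz0 hz hy4 hz4 hfix hU hV using hex
  set a : ℕ → ℕ := fun j => 2 * b ^ 2 + (y j).toNat * b + (z j).toNat with ha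
  have hcyc : ∀ j ∈ Finset.range (M + 1), IsCycle b {a j} := by
    intro j hj
    apply fixed_isCycle
    · have : 0 < b ^ 2 := by positivity
      show 0 < 2 * b ^ 2 + (y j).toNat * b + (z j).toNat
      omega
    · have e1 : ((y j).toNat : ℤ) = y j := Int.toNat_of_nonneg (hy0 j hj)
      have e2 : ((z j).toNat : ℤ) = z j := Int.toNat_of_nonneg (hz0 j hj)
      have h1 : (y j).toNat < b := by
        have : ((y j).toNat : ℤ) < b := by rw [e1, hb]; exact hy j hj
        exact_mod_cast this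
      have h2 : (z j).toNat < b := by
        have : ((z j).toNat : ℤ) < b := by rw [e2, hb]; exact hz j hj
        exact_mod_cast this
      rw [ha]
      simp only
      rw [E_three hb2 h1 h2]
      have h3 : (2 * (((z j).toNat : ℤ) ^ 2 + ((y j).toNat : ℤ) ^ 2 + 4)) =
          2 * (b : ℤ) ^ 2 + (y j).toNat * b + (z j).toNat := by
        rw [e1, e2, hb]; exact hfix j hj
      exact_mod_cast h3
  have hinj : Set.InjOn (fun j => ({a j} : Set ℕ)) (Finset.range (M + 1) : Set ℕ) := by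
    intro i hi j hj hij
    have hi' : i ∈ Finset.range (M + 1) := hi
    have hj' : j ∈ Finset.range (M + 1) := hj
    have h1 : a i = a j := Set.singleton_injective hij
    have e1 : ((y i).toNat : ℤ) = y i := Int.toNat_of_nonneg (hy0 i hi')
    have e2 : ((z i).toNat : ℤ) = z i := Int.toNat_of_nonneg (hz0 i hi')
    have e3 : ((y j).toNat : ℤ) = y j := Int.toNat_of_nonneg (hy0 j hj')
    have e4 : ((z j).toNat : ℤ) = z j := Int.toNat_of_nonneg (hz0 j hj')
    have h2 : (y i).toNat * b + (z i).toNat = (y j).toNat * b + (z j).toNat := by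
      have : 2 * b ^ 2 + (y i).toNat * b + (z i).toNat = 2 * b ^ 2 + (y j).toNat * b + (z j).toNat := h1
      omega
    have hzi : (z i).toNat < b := by
      have : ((z i).toNat : ℤ) < b := by rw [e2, hb]; exact hz i hi'
      exact_mod_cast this
    have hzj : (z j).toNat < b := by
      have : ((z j).toNat : ℤ) < b := by rw [e4, hb]; exact hz j hj'
      exact_mod_cast this
    have hzz : (z i).toNat = (z j).toNat := by
      have h3 := congrArg (fun x => x % b) h2
      simp only [Nat.mul_add_mod'] at h3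
      rwa [Nat.mod_eq_of_lt hzi, Nat.mod_eq_of_lt hzj] at h3
    have hyy : (y i).toNat = (y j).toNat := by
      rw [hzz] at h2
      have h3 : (y i).toNat * b = (y j).toNat * b := by omega
      exact Nat.eq_of_mul_eq_mul_right (by omega) h3
    have hyz : y i = y j := by rw [← e1, ← e3, hyy]
    have hzz' : z i = z j := by rw [← e2, ← e4, hzz]
    have h4i := hy4 i hi'
    have h4j := hy4 j hj'
    have h5i := hz4 i hi'
    have h5j := hz4 j hj'
    rw [hyz] at h4i
    rw [hzz'] at h5i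
    have c1 : (cc i : ℤ) * q i = cc j * q j := by linarith
    have c2 : (cc i : ℤ) * p i = cc j * p j := by linarith
    have g1 : (2 * (cc i : ℤ) ^ 2 + 59) * p i = (2 * (cc j : ℤ) ^ 2 + 59) * p j := by
      have h6 := hU i hi'
      have h7 := hU j hj'
      linarith
    have hpp : p i * p j ≠ 0 := (mul_pos (hp i hi') (hp j hj')).ne'
    have h8 : p i * p j * ((2 * (cc i : ℤ) ^ 2 + 59) * cc j - (2 * (cc j : ℤ) ^ 2 + 59) * cc i) = 0 := by
      linear_combination (cc j * p j) * g1 - (2 * (cc j : ℤ) ^ 2 + 59) * p j * c2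
    have h9 := (mul_eq_zero.1 h8).resolve_left hpp
    have h10 : ((cc i : ℤ) - cc j) * (2 * (cc i : ℤ) * cc j - 59) = 0 := by linear_combination h9
    have h11 : (2 * (cc i : ℤ) * cc j - 59) ≠ 0 := by
      have h12 : (85 : ℤ) ≤ cc i := by exact_mod_cast cc_ge i
      have h13 : (85 : ℤ) ≤ cc j := by exact_mod_cast cc_ge j
      nlinarith
    have h14 := (mul_eq_zero.1 h10).resolve_right h11
    have h15 : cc i = cc j := by
      have : (cc i : ℤ) = cc j := by linarith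
      exact_mod_cast this
    exact cc_strictMono.injective h15
  refine ⟨b, by omega, ?_⟩
  have h1 : (fun j => ({a j} : Set ℕ)) '' (Finset.range (M + 1) : Set ℕ) ⊆ {S : Set ℕ | IsCycle b S} := by
    rintro _ ⟨j, hj, rfl⟩
    exact hcyc j hj
  have h2 := Set.encard_le_encard h1
  rw [hinj.encard_image, Set.encard_coe_eq_coe_finsetCard, Finset.card_range] at h2
  have h3 : (M : ℕ∞) < ((M + 1 : ℕ) : ℕ∞) := by exact_mod_cast Nat.lt_succ_self M
  exact lt_of_lt_of_le h3 h2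

end Pool.Agent.Results.MP_096971_nt.Unbounded
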